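import Pool.Agent.N356.SP.Defs4

/-!
# Project LS, part 2 (helper356): the pointwise inequality
-/

set_option autoImplicit false

namespace Pool.Agent.N738.LS

open Pool.Agent.N356.SP (c4)

theorem c4_pos : 0 < c4 := by
  unfold c4
  positivity

theorem c4_pow : c4 ^ 4 = 2744 / 5 := by
  unfold c4
  rw [← Real.rpow_natCast, ← Real.rpow_mul (by norm_num)]
  norm_num

/-- **KS11**: the pointwise inequality -/
theorem pw4 {μ w ν : ℝ} (hμ : 0 ≤ μ) (hw : 0 ≤ w) (hν : 0 ≤ ν)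
    (h : ν ^ 4 = 35 / 8 * μ ^ 4 + 20 / 3 * μ ^ 2 * w + 32 / 75 * w ^ 2) :
    7 / c4 * μ ≤ ν ∧ μ * w ≤ 217 / 250 * ν ^ 2 * (ν - 7 / c4 * μ) := by
  have hc := c4_pos
  obtain ⟨a, ha⟩ : ∃ a : ℝ, a = c4 / 7 := ⟨_, rfl⟩
  have ha0 : 0 < a := by rw [ha]; positivity
  have ha4 : a ^ 4 = 8 / 35 := by
    rw [ha, div_pow, c4_pow]
    norm_num
  obtain ⟨m, hm⟩ : ∃ m : ℝ, m = 7 / c4 * μ := ⟨_, rfl⟩
  have hm0 : 0 ≤ m := by rw [hm]; positivity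
  have hμm : μ = a * m := by
    rw [ha, hm]
    field_simp
  rw [← hm]
  have h1 : ν ^ 4 = m ^ 4 + 20 / 3 * μ ^ 2 * w + 32 / 75 * w ^ 2 := by
    rw [h, hμm, mul_pow, ha4]
    ring
  have hmν : m ≤ ν := by
    have h2 : m ^ 4 ≤ ν ^ 4 := by
      rw [h1]
      have := mul_nonneg (sq_nonneg μ) hw
      nlinarith [sq_nonneg w]
    exact le_of_pow_le_pow_left₀ (by norm_num) hν h2
  refine ⟨hmν, ?_⟩
  -- the bounds for `a`
  have hal : 3000 / 4340 ≤ a := by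
    refine le_of_pow_le_pow_left₀ (n := 4) (by norm_num) ha0.le ?_
    rw [ha4]
    norm_num
  have hau : a ^ 2 ≤ 478365 / 1000000 := by
    refine le_of_pow_le_pow_left₀ (n := 2) (by norm_num) (by norm_num) ?_
    rw [← pow_mul, ha4]
    norm_num
  by_contra hcon
  rw [not_le] at hcon
  set δ := ν - m with hδ
  have hδ0 : 0 ≤ δ := sub_nonneg.mpr hmν
  set x := μ * w with hx
  have hKx : 0 ≤ 217 / 250 * ν ^ 2 * δ := by positivity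
  have hx0 : 0 < x := lt_of_le_of_lt hKx hcon
  have hm1 : 0 < m := by
    rcases hm0.eq_or_lt with e | e
    · exfalso
      rw [hx, hμm, ← e] at hx0
      simp at hx0
    · exact e
  have hν0 : 0 < ν := lt_of_lt_of_le hm1 hmν
  -- the identity
  have h3 : a ^ 2 * m ^ 2 * (δ * ((ν + m) * (ν ^ 2 + m ^ 2))) =
      20 / 3 * a ^ 3 * m ^ 3 * x + 32 / 75 * x ^ 2 := by
    have e1 : δ * ((ν + m) * (ν ^ 2 + m ^ 2)) = ν ^ 4 - m ^ 4 := by rw [hδ]; ring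
    rw [e1, h1, hx, hμm]
    ring
  have h4 : 20 / 3 * a ^ 3 * m ^ 3 * (217 / 250 * ν ^ 2 * δ) + 32 / 75 * (217 / 250 * ν ^ 2 * δ) ^ 2 <
      20 / 3 * a ^ 3 * m ^ 3 * x + 32 / 75 * x ^ 2 := by
    have e1 : 20 / 3 * a ^ 3 * m ^ 3 * (217 / 250 * ν ^ 2 * δ) < 20 / 3 * a ^ 3 * m ^ 3 * x :=
      mul_lt_mul_of_pos_left hcon (by positivity)
    have e2 : (217 / 250 * ν ^ 2 * δ) ^ 2 ≤ x ^ 2 := pow_le_pow_left₀ hKx hcon.le 2
    linarith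
  rw [← h3] at h4
  rcases hδ0.eq_or_lt with hz | hp
  · rw [← hz] at h4
    simp at h4
  -- divide by `δ` and `a ^ 2`
  have h5 : 4 * m ^ 3 * ν ^ 2 + 672 / 1000 * ν ^ 4 * δ < m ^ 2 * ((ν + m) * (ν ^ 2 + m ^ 2)) := by
    have e1 : a ^ 2 * δ * (4 * m ^ 3 * ν ^ 2 + 672 / 1000 * ν ^ 4 * δ) <
        a ^ 2 * δ * (m ^ 2 * ((ν + m) * (ν ^ 2 + m ^ 2))) := by
      refine lt_of_le_of_lt ?_ (lt_of_lt_of_eq h4 (by ring))
      have e2 : a ^ 2 * δ * (4 * m ^ 3 * ν ^ 2) ≤ 20 / 3 * a ^ 3 * m ^ 3 * (217 / 250 * ν ^ 2 * δ) := by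
        have e3 : 4 ≤ 20 / 3 * (217 / 250) * a := by linarith
        calc a ^ 2 * δ * (4 * m ^ 3 * ν ^ 2) = (a ^ 2 * δ * m ^ 3 * ν ^ 2) * 4 := by ring
          _ ≤ (a ^ 2 * δ * m ^ 3 * ν ^ 2) * (20 / 3 * (217 / 250) * a) :=
            mul_le_mul_of_nonneg_left e3 (by positivity)
          _ = _ := by ring
      have e4 : a ^ 2 * δ * (672 / 1000 * ν ^ 4 * δ) ≤ 32 / 75 * (217 / 250 * ν ^ 2 * δ) ^ 2 := by
        have e5 : 672 / 1000 * a ^ 2 ≤ 32 / 75 * (217 / 250) ^ 2 := by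
          nlinarith
        calc a ^ 2 * δ * (672 / 1000 * ν ^ 4 * δ) = (ν ^ 4 * δ ^ 2) * (672 / 1000 * a ^ 2) := by ring
          _ ≤ (ν ^ 4 * δ ^ 2) * (32 / 75 * (217 / 250) ^ 2) :=
            mul_le_mul_of_nonneg_left e5 (by positivity)
          _ = _ := by ring
      rw [mul_add]
      exact add_le_add e2 e4
    exact lt_of_mul_lt_mul_left e1 (by positivity)
  have h6 : 4 * m ^ 3 * ν ^ 2 + 672 / 1000 * ν ^ 4 * δ - m ^ 2 * ((ν + m) * (ν ^ 2 + m ^ 2)) =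
      δ * (672 / 1000 * ν ^ 4 - m ^ 2 * ν ^ 2 + 2 * m ^ 3 * ν + m ^ 4) := by
    rw [hδ]
    ring
  have h7 : 0 ≤ 672 / 1000 * ν ^ 4 - m ^ 2 * ν ^ 2 + 2 * m ^ 3 * ν + m ^ 4 := by
    have e1 : 0 ≤ m ^ 3 * ν := by positivity
    nlinarith [sq_nonneg (ν ^ 2 - 2 * m ^ 2), sq_nonneg (ν ^ 2 - m ^ 2), sq_nonneg (ν ^ 2),
      sq_nonneg (m ^ 2)]
  have h8 := mul_nonneg hδ0 h7
  linarith

end Pool.Agent.N738.LS
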